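import Pool.Agent.E8helper4.FV.Stm

/-!
Project FV, piece B2: the Sturm type argument.
-/

set_option autoImplicit false

open Set Filter Topology

namespace Pool.Agent.E8helper81.FV

open Pool.Agent.E8helper4.FV

/-- the second derivative at a local maximum -/
lemma sd_max (ψ ψ1 : ℝ → ℝ) (c m : ℝ) (h : ∀ t, HasDerivAt ψ (ψ1 t) t)
    (h2 : HasDerivAt ψ1 c m) (hm : IsLocalMax ψ m) : c ≤ 0 := by
  by_contra hc
  push Not at hc
  have hd : deriv ψ = ψ1 := funext fun t => (h t).deriv
  have h3 : deriv (deriv ψ) m = c := by rw [hd]; exact h2.deriv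
  have h4 : deriv ψ m = 0 := hm.deriv_eq_zero
  have h5 : IsLocalMin ψ m :=
    isLocalMin_of_deriv_deriv_pos (by rw [h3]; exact hc) h4 (h m).continuousAt
  have h6 : ψ =ᶠ[𝓝 m] fun _ => ψ m := by
    filter_upwards [hm, h5] with t ht1 ht2
    exact le_antisymm ht1 ht2
  have h7 : deriv ψ =ᶠ[𝓝 m] deriv fun _ => ψ m := h6.deriv
  have h8 := h7.deriv_eq
  rw [h3] at h8
  simp at h8
  linarith

/-- first lemma: maximum principle -/
lemma l1 (f f1 g : ℝ → ℝ) (hf : ∀ s, HasDerivAt f (f1 s) s)
    (hf1 : ∀ s, HasDerivAt f1 (g s - f s) s) (a b p : ℝ) (hab : b - a < Real.pi)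
    (hap : a < p) (hpb : p < b) (fa : f a = 0) (fb : f b = 0) (fp : 0 < f p) :
    ∃ t ∈ Ioo a b, 0 < f t ∧ g t < 0 := by
  have hl : 0 < b - a := by linarith
  set k : ℝ := (1 + Real.pi / (b - a)) / 2 with hk
  have hk1 : 1 < k := by
    have : 1 < Real.pi / (b - a) := by rw [lt_div_iff₀ hl]; linarith
    rw [hk]; linarith
  have hkl : k * (b - a) < Real.pi := by
    have : k * (b - a) = ((b - a) + Real.pi) / 2 := by rw [hk]; field_simp
    rw [this]; linarith
  set c : ℝ := (a + b) / 2 with hc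
  set φ : ℝ → ℝ := fun t => Real.cos (k * (t - c)) with hφ
  have hφ0 : ∀ t ∈ Icc a b, 0 < φ t := by
    intro t ht
    simp only [hφ]
    apply Real.cos_pos_of_mem_Ioo
    constructor
    · have : -(k * ((b - a) / 2)) ≤ k * (t - c) := by
        have h1 : -((b - a) / 2) ≤ t - c := by rw [hc]; linarith [ht.1]
        nlinarith
      linarith
    · have : k * (t - c) ≤ k * ((b - a) / 2) := by
        have h1 : t - c ≤ (b - a) / 2 := by rw [hc]; linarith [ht.2]
        nlinarith
      linarith
  have hfc : Continuous f := continuous_iff_continuousAt.2 fun t => (hf t).continuousAt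
  have hφc : Continuous φ := by simp only [hφ]; fun_prop
  have hcont : ContinuousOn (fun t => f t / φ t) (Icc a b) :=
    hfc.continuousOn.div hφc.continuousOn fun t ht => (hφ0 t ht).ne'
  obtain ⟨m, hm, hmax⟩ := isCompact_Icc.exists_isMaxOn ⟨p, hap.le, hpb.le⟩ hcont
  set μ : ℝ := f m / φ m with hμ
  have hμp : 0 < μ := by
    have h1 : f p / φ p ≤ μ := hmax ⟨hap.le, hpb.le⟩
    have h2 : 0 < f p / φ p := div_pos fp (hφ0 p ⟨hap.le, hpb.le⟩)
    linarith
  have hma : m ≠ a := by
    intro h
    rw [hμ, h, fa] at hμp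
    simp at hμp
  have hmb : m ≠ b := by
    intro h
    rw [hμ, h, fb] at hμp
    simp at hμp
  have hmI : m ∈ Ioo a b := ⟨lt_of_le_of_ne hm.1 (Ne.symm hma), lt_of_le_of_ne hm.2 hmb⟩
  have hfm : f m = μ * φ m := by
    rw [hμ, div_mul_cancel₀ _ (hφ0 m hm).ne']
  have hfm0 : 0 < f m := by rw [hfm]; exact mul_pos hμp (hφ0 m hm)
  have hloc : IsLocalMax (fun t => f t - μ * φ t) m := by
    filter_upwards [Ioo_mem_nhds hmI.1 hmI.2] with t ht
    have ht' : t ∈ Icc a b := ⟨ht.1.le, ht.2.le⟩
    have h1 : f t / φ t ≤ μ := hmax ht'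
    rw [div_le_iff₀ (hφ0 t ht')] at h1
    rw [hfm]
    linarith
  have hd1 : ∀ t, HasDerivAt (fun t => f t - μ * φ t) (f1 t - μ * (-Real.sin (k * (t - c)) * k)) t := by
    intro t
    have h1 : HasDerivAt (fun t => k * (t - c)) k t := by
      simpa using ((hasDerivAt_id t).sub_const c).const_mul k
    exact (hf t).sub ((h1.cos).const_mul μ)
  have hd2 : HasDerivAt (fun t => f1 t - μ * (-Real.sin (k * (t - c)) * k))
      (g m - f m - μ * (-(Real.cos (k * (m - c)) * k) * k)) m := by
    have h1 : HasDerivAt (fun t => k * (t - c)) k m := by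
      simpa using ((hasDerivAt_id m).sub_const c).const_mul k
    exact (hf1 m).sub ((((h1.sin).neg).mul_const k).const_mul μ)
  have h3 := sd_max _ _ _ _ hd1 hd2 hloc
  refine ⟨m, hmI, hfm0, ?_⟩
  have h4 : g m ≤ f m - k ^ 2 * (μ * φ m) := by
    simp only [hφ]
    nlinarith
  rw [← hfm] at h4
  nlinarith [mul_pos (mul_pos (sub_pos.2 hk1) (by linarith : (0:ℝ) < k + 1)) hfm0]

/-- second lemma -/
lemma l2 (f f1 g : ℝ → ℝ) (hf : ∀ s, HasDerivAt f (f1 s) s)
    (hf1 : ∀ s, HasDerivAt f1 (g s - f s) s) (a z b : ℝ) (hab : b - a < Real.pi)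
    (haz : a < z) (hzb : z < b) (fa : 0 < f a) (fz : f z = 0) (fb : 0 < f b) :
    ∃ t ∈ Ioo a b, 0 < g t := by
  by_contra hcon
  push Not at hcon
  rcases le_total (f1 z) 0 with h0 | h0
  · have hK : ∀ t, HasDerivAt (fun t => f1 t * Real.sin (b - t) + f t * Real.cos (b - t))
        (g t * Real.sin (b - t)) t := by
      intro t
      have h1 : HasDerivAt (fun t => b - t) (-1) t := by
        simpa using (hasDerivAt_id t).const_sub b
      have h2 := ((hf1 t).mul h1.sin).add ((hf t).mul h1.cos)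
      exact h2.congr_deriv (by ring)
    have hanti : AntitoneOn (fun t => f1 t * Real.sin (b - t) + f t * Real.cos (b - t))
        (Icc z b) := by
      apply antitoneOn_of_deriv_nonpos (convex_Icc z b)
      · exact (continuous_iff_continuousAt.2 fun t => (hK t).continuousAt).continuousOn
      · exact fun t _ => (hK t).differentiableAt.differentiableWithinAt
      · intro t ht
        rw [interior_Icc] at ht
        rw [(hK t).deriv]
        apply mul_nonpos_of_nonpos_of_nonneg (hcon t ⟨haz.trans ht.1, ht.2⟩)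
        exact Real.sin_nonneg_of_nonneg_of_le_pi (by linarith [ht.2]) (by linarith [ht.1])
    have h3 := hanti (left_mem_Icc.2 hzb.le) (right_mem_Icc.2 hzb.le) hzb.le
    simp only [sub_self, Real.sin_zero, Real.cos_zero, mul_zero, mul_one, zero_add, fz,
      zero_mul, add_zero] at h3
    have h4 : f1 z * Real.sin (b - z) ≤ 0 :=
      mul_nonpos_of_nonpos_of_nonneg h0
        (Real.sin_nonneg_of_nonneg_of_le_pi (by linarith) (by linarith))
    linarith
  · have hK : ∀ t, HasDerivAt (fun t => f1 t * Real.sin (t - a) - f t * Real.cos (t - a))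
        (g t * Real.sin (t - a)) t := by
      intro t
      have h1 : HasDerivAt (fun t => t - a) 1 t := by
        simpa using (hasDerivAt_id t).sub_const a
      have h2 := ((hf1 t).mul h1.sin).sub ((hf t).mul h1.cos)
      exact h2.congr_deriv (by ring)
    have hanti : AntitoneOn (fun t => f1 t * Real.sin (t - a) - f t * Real.cos (t - a))
        (Icc a z) := by
      apply antitoneOn_of_deriv_nonpos (convex_Icc a z)
      · exact (continuous_iff_continuousAt.2 fun t => (hK t).continuousAt).continuousOn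
      · exact fun t _ => (hK t).differentiableAt.differentiableWithinAt
      · intro t ht
        rw [interior_Icc] at ht
        rw [(hK t).deriv]
        apply mul_nonpos_of_nonpos_of_nonneg (hcon t ⟨ht.1, ht.2.trans hzb⟩)
        exact Real.sin_nonneg_of_nonneg_of_le_pi (by linarith [ht.1]) (by linarith [ht.2])
    have h3 := hanti (left_mem_Icc.2 haz.le) (right_mem_Icc.2 haz.le) haz.le
    simp only [sub_self, Real.sin_zero, Real.cos_zero, mul_zero, mul_one, fz,
      zero_mul, sub_zero, zero_sub] at h3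
    have h4 : 0 ≤ f1 z * Real.sin (z - a) :=
      mul_nonneg h0 (Real.sin_nonneg_of_nonneg_of_le_pi (by linarith) (by linarith))
    linarith

/-- a chain of `n` alternations from `a` to `b` -/
def Ch (g : ℝ → ℝ) (n : ℕ) (a b : ℝ) : Prop :=
  ∃ x : ℕ → ℝ, x 0 = a ∧ x n = b ∧ ∀ i < n, x i < x (i + 1) ∧ g (x i) * g (x (i + 1)) < 0

lemma Ch.append {g : ℝ → ℝ} {m n : ℕ} {a b c : ℝ} (h1 : Ch g m a b) (h2 : Ch g n b c) :
    Ch g (m + n) a c := by
  obtain ⟨x, x0, xm, hx⟩ := h1
  obtain ⟨y, y0, yn, hy⟩ := h2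
  have hw : ∀ i, i ≤ m → (if i < m then x i else y (i - m)) = x i := by
    intro i hi
    rcases hi.lt_or_eq with h | h
    · rw [if_pos h]
    · rw [if_neg (by omega), h, Nat.sub_self, y0, xm]
  refine ⟨fun i => if i < m then x i else y (i - m), ?_, ?_, ?_⟩
  · show (if 0 < m then x 0 else y (0 - m)) = a
    rw [hw 0 (Nat.zero_le m), x0]
  · show (if m + n < m then x (m + n) else y (m + n - m)) = c
    rw [if_neg (by omega), Nat.add_sub_cancel_left, yn]
  · intro i hi
    show (if i < m then x i else y (i - m)) < (if i + 1 < m then x (i + 1) else y (i + 1 - m)) ∧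
      g (if i < m then x i else y (i - m)) * g (if i + 1 < m then x (i + 1) else y (i + 1 - m)) < 0
    by_cases h : i < m
    · rw [hw i h.le, hw (i + 1) h]
      exact hx i h
    · rw [if_neg h, if_neg (by omega : ¬ i + 1 < m), show i + 1 - m = (i - m) + 1 by omega]
      exact hy (i - m) (by omega)

lemma Ch.mono {g : ℝ → ℝ} {n : ℕ} {x : ℕ → ℝ}
    (hx : ∀ i < n, x i < x (i + 1) ∧ g (x i) * g (x (i + 1)) < 0) {i j : ℕ} (hij : i ≤ j)
    (hj : j ≤ n) : x i ≤ x j := by
  induction j, hij using Nat.le_induction with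
  | base => exact le_rfl
  | succ j hij ih => exact (ih (by omega)).trans (hx j (by omega)).1.le

lemma Ch.six {g : ℝ → ℝ} {n : ℕ} {a b : ℝ} (h : Ch g n a b) (hn : 6 ≤ n)
    (hb : b ≤ a + 2 * Real.pi) (ha : g a ≠ 0) : Six g := by
  obtain ⟨x, x0, xn, hx⟩ := h
  have key : ∀ j : ℕ, j + 5 ≤ n → 0 < g (x j) → x (j + 5) < x j + 2 * Real.pi → Six g := by
    intro j hj hg hlt
    refine ⟨fun i => x (j + i), ?_, by simpa using hlt, ?_⟩
    · apply Fin.strictMono_iff_lt_succ.2
      intro i
      have hi : (i : ℕ) < 5 := i.2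
      have := (hx (j + i) (by omega)).1
      simpa [add_assoc] using this
    · have hind : ∀ i : ℕ, i ≤ 5 → 0 < (-1 : ℝ) ^ i * g (x (j + i)) := by
        intro i
        induction i with
        | zero => intro _; simpa using hg
        | succ i ih =>
          intro hi
          have h1 := ih (by omega)
          have h2 := (hx (j + i) (by omega)).2
          rw [show j + (i + 1) = j + i + 1 by ring]
          set A := (-1 : ℝ) ^ i with hA
          have hA2 : A * A = 1 := by
            rw [hA, ← mul_pow]; norm_num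
          rw [pow_succ]
          by_contra hcon
          push Not at hcon
          have h3 : 0 ≤ A * g (x (j + i + 1)) := by linarith
          have h4 : 0 ≤ (A * g (x (j + i))) * (A * g (x (j + i + 1))) := mul_nonneg h1.le h3
          have h5 : (A * g (x (j + i))) * (A * g (x (j + i + 1)))
              = (A * A) * (g (x (j + i)) * g (x (j + i + 1))) := by ring
          rw [h5, hA2] at h4
          linarith
      intro i
      exact hind i (by omega)
  rcases lt_or_gt_of_ne ha with hneg | hpos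
  · -- start at 1
    have h1 := hx 0 (by omega)
    rw [x0] at h1
    refine key 1 (by omega) ?_ ?_
    · rw [zero_add] at h1
      by_contra hcon
      push Not at hcon
      have := mul_nonneg_of_nonpos_of_nonpos hneg.le hcon
      linarith [h1.2]
    · have h2 : x 6 ≤ x n := Ch.mono hx hn le_rfl
      rw [zero_add] at h1
      show x 6 < x 1 + 2 * Real.pi
      linarith [h1.1]
  · refine key 0 (by omega) (by rw [x0]; exact hpos) ?_
    have h2 : x 6 ≤ x n := Ch.mono hx hn le_rfl
    have h3 := (hx 5 (by omega)).1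
    show x 5 < x 0 + 2 * Real.pi
    rw [x0]
    have h4 : x (5 + 1) = x 6 := rfl
    linarith

/-- one segment -/
lemma seg (f f1 g : ℝ → ℝ) (hf : ∀ s, HasDerivAt f (f1 s) s)
    (hf1 : ∀ s, HasDerivAt f1 (g s - f s) s) (a z b : ℝ) (hab : b - a < Real.pi)
    (haz : a < z) (hzb : z < b) (fz : f z = 0) (ha : f a * g a < 0) (hb : f b * g b < 0) :
    (g a * g b < 0 ∧ Ch g 1 a b) ∨ (0 < g a * g b ∧ Ch g 2 a b) := by
  have hga : g a ≠ 0 := fun h => by rw [h] at ha; simp at ha
  have hgb : g b ≠ 0 := fun h => by rw [h] at hb; simp at hb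
  rcases lt_or_gt_of_ne (mul_ne_zero hga hgb) with h | h
  · left
    refine ⟨h, fun i => if i = 0 then a else b, by simp, by simp, ?_⟩
    intro i hi
    have : i = 0 := by omega
    subst this
    simp only [if_true, zero_add, one_ne_zero, if_false]
    exact ⟨haz.trans hzb, h⟩
  · right
    refine ⟨h, ?_⟩
    have hex : ∃ t ∈ Ioo a b, g a * g t < 0 ∧ g t * g b < 0 := by
      rcases lt_or_gt_of_ne hga with h1 | h1
      · have h2 : g b < 0 := by
          by_contra hc
          push Not at hc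
          have := mul_nonneg_of_nonpos_of_nonpos h1.le (neg_nonpos.2 hc)
          linarith
        have fa : 0 < f a := by
          by_contra hc
          push Not at hc
          linarith [mul_nonneg_of_nonpos_of_nonpos hc h1.le]
        have fb : 0 < f b := by
          by_contra hc
          push Not at hc
          linarith [mul_nonneg_of_nonpos_of_nonpos hc h2.le]
        obtain ⟨t, ht, hgt⟩ := l2 f f1 g hf hf1 a z b hab haz hzb fa fz fb
        exact ⟨t, ht, mul_neg_of_neg_of_pos h1 hgt, mul_neg_of_pos_of_neg hgt h2⟩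
      · have h2 : 0 < g b := by
          by_contra hc
          push Not at hc
          linarith [mul_nonneg h1.le (neg_nonneg.2 hc)]
        have fa : f a < 0 := by
          by_contra hc
          push Not at hc
          linarith [mul_nonneg hc h1.le]
        have fb : f b < 0 := by
          by_contra hc
          push Not at hc
          linarith [mul_nonneg hc h2.le]
        obtain ⟨t, ht, hgt⟩ := l2 (fun s => -f s) (fun s => -f1 s) (fun s => -g s)
          (fun s => (hf s).neg) (fun s => by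
            have := (hf1 s).neg
            exact this.congr_deriv (by ring)) a z b hab haz hzb (by linarith) (by simp [fz]) (by linarith)
        have hgt' : g t < 0 := by linarith
        exact ⟨t, ht, mul_neg_of_pos_of_neg h1 hgt', mul_neg_of_neg_of_pos hgt' h2⟩
    obtain ⟨t, ht, h3, h4⟩ := hex
    refine ⟨fun i => if i = 0 then a else if i = 1 then t else b, by simp, by simp, ?_⟩
    intro i hi
    have : i = 0 ∨ i = 1 := by omega
    rcases this with rfl | rfl
    · simp only [if_true, zero_add, one_ne_zero, if_false]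
      exact ⟨ht.1, h3⟩
    · simp only [if_true, one_ne_zero, if_false, Nat.reduceAdd, OfNat.ofNat_ne_zero,
        OfNat.ofNat_ne_one]
      exact ⟨ht.2, h4⟩

/-- the sign data on one interval -/
def Pt (f g : ℝ → ℝ) (a b s : ℝ) : Prop := ∃ t ∈ Ioo a b, 0 < s * f t ∧ s * g t < 0

lemma pt_of (f f1 g : ℝ → ℝ) (hf : ∀ s, HasDerivAt f (f1 s) s)
    (hf1 : ∀ s, HasDerivAt f1 (g s - f s) s) (a b p s : ℝ) (hab : b - a < Real.pi)
    (hap : a < p) (hpb : p < b) (fa : f a = 0) (fb : f b = 0) (fp : 0 < s * f p) :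
    Pt f g a b s := by
  obtain ⟨t, ht, h1, h2⟩ := l1 (fun x => s * f x) (fun x => s * f1 x) (fun x => s * g x)
    (fun x => (hf x).const_mul s) (fun x => by
      have := (hf1 x).const_mul s
      exact this.congr_deriv (by ring)) a b p hab hap hpb (by simp [fa]) (by simp [fb]) fp
  exact ⟨t, ht, h1, h2⟩

/-- the sign analysis -/
lemma fin4 (f f1 g : ℝ → ℝ) (hf : ∀ s, HasDerivAt f (f1 s) s)
    (hf1 : ∀ s, HasDerivAt f1 (g s - f s) s) (pf : ∀ s, f (s + 2 * Real.pi) = f s)
    (pg : ∀ s, g (s + 2 * Real.pi) = g s) (z0 z1 : ℝ) (h01 : z0 < z1) (h12 : z1 < z0 + Real.pi)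
    (f0 : f z0 = 0) (f1' : f z1 = 0) (f2 : f (z0 + Real.pi) = 0) (f3 : f (z1 + Real.pi) = 0)
    (s0 s1 s2 s3 : ℝ) (e0 : s0 = 1 ∨ s0 = -1) (e1 : s1 = 1 ∨ s1 = -1) (e2 : s2 = 1 ∨ s2 = -1)
    (e3 : s3 = 1 ∨ s3 = -1) (p0 : Pt f g z0 z1 s0) (p1 : Pt f g z1 (z0 + Real.pi) s1)
    (p2 : Pt f g (z0 + Real.pi) (z1 + Real.pi) s2)
    (p3 : Pt f g (z1 + Real.pi) (z0 + 2 * Real.pi) s3)
    (hne : ¬ (s1 = -s0 ∧ s2 = -s1 ∧ s3 = -s2)) : Six g := by
  obtain ⟨t0, ht0, a0, b0⟩ := p0
  obtain ⟨t1, ht1, a1, b1⟩ := p1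
  obtain ⟨t2, ht2, a2, b2⟩ := p2
  obtain ⟨t3, ht3, a3, b3⟩ := p3
  have sgn : ∀ s x y : ℝ, (s = 1 ∨ s = -1) → 0 < s * x → s * y < 0 → x * y < 0 := by
    intro s x y hs h1 h2
    have h3 : (s * x) * (s * y) < 0 := mul_neg_of_pos_of_neg h1 h2
    rcases hs with rfl | rfl
    · linarith
    · linarith
  have c0 := sgn _ _ _ e0 a0 b0
  have c1 := sgn _ _ _ e1 a1 b1
  have c2 := sgn _ _ _ e2 a2 b2
  have c3 := sgn _ _ _ e3 a3 b3
  have c4 : f (t0 + 2 * Real.pi) * g (t0 + 2 * Real.pi) < 0 := by rw [pf, pg]; exact c0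
  have hpi := Real.pi_pos
  have g0 : g t0 ≠ 0 := fun h => by rw [h] at c0; simp at c0
  have q0 := seg f f1 g hf hf1 t0 z1 t1 (by linarith [ht0.1, ht1.2]) ht0.2 ht1.1 f1' c0 c1
  have q1 := seg f f1 g hf hf1 t1 (z0 + Real.pi) t2 (by linarith [ht1.1, ht2.2]) ht1.2 ht2.1
    f2 c1 c2
  have q2 := seg f f1 g hf hf1 t2 (z1 + Real.pi) t3 (by linarith [ht2.1, ht3.2]) ht2.2 ht3.1
    f3 c2 c3
  have q3 := seg f f1 g hf hf1 t3 (z0 + 2 * Real.pi) (t0 + 2 * Real.pi)
    (by linarith [ht3.1, ht0.2]) ht3.2 (by linarith [ht0.1]) (by rw [pf]; exact f0) c3 c4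
  rw [pg] at q3
  -- the four segments cannot all alternate
  have hsq : ∀ x y : ℝ, x ≠ 0 → 0 < x ^ 2 := fun x _ hx => by positivity
  have g1 : g t1 ≠ 0 := fun h => by rw [h] at c1; simp at c1
  have g2 : g t2 ≠ 0 := fun h => by rw [h] at c2; simp at c2
  have g3 : g t3 ≠ 0 := fun h => by rw [h] at c3; simp at c3
  have hsgn : ∀ s s' x y : ℝ, (s = 1 ∨ s = -1) → (s' = 1 ∨ s' = -1) → s * x < 0 → s' * y < 0 →
      x * y < 0 → s' = -s := by
    intro s s' x y hs hs' h1 h2 h3
    rcases hs with rfl | rfl <;> rcases hs' with rfl | rfl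
    · exfalso; nlinarith
    · rfl
    · norm_num
    · exfalso; nlinarith
  have hfin : ∀ n : ℕ, Ch g n t0 (t0 + 2 * Real.pi) → 6 ≤ n → Six g :=
    fun n h hn => h.six hn le_rfl g0
  rcases q0 with ⟨u0, k0⟩ | ⟨u0, k0⟩ <;> rcases q1 with ⟨u1, k1⟩ | ⟨u1, k1⟩ <;>
    rcases q2 with ⟨u2, k2⟩ | ⟨u2, k2⟩ <;> rcases q3 with ⟨u3, k3⟩ | ⟨u3, k3⟩
  all_goals first
    | (refine hfin _ (((k0.append k1).append k2).append k3) ?_
       omega)
    | (exfalso
       first
       | exact hne ⟨hsgn _ _ _ _ e0 e1 b0 b1 u0, hsgn _ _ _ _ e1 e2 b1 b2 u1,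
           hsgn _ _ _ _ e2 e3 b2 b3 u2⟩
       | (have hpos : 0 < (g t0 * g t1) * (g t1 * g t2) * ((g t2 * g t3) * (g t3 * g t0)) := by
            have : (g t0 * g t1) * (g t1 * g t2) * ((g t2 * g t3) * (g t3 * g t0))
              = (g t0 * g t1 * g t2 * g t3) ^ 2 := by ring
            rw [this]
            positivity
          have hneg : (g t0 * g t1) * (g t1 * g t2) * ((g t2 * g t3) * (g t3 * g t0)) < 0 := by
            first
            | exact mul_neg_of_pos_of_neg (mul_pos_of_neg_of_neg u0 u1)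
                (mul_neg_of_neg_of_pos u2 u3)
            | exact mul_neg_of_pos_of_neg (mul_pos_of_neg_of_neg u0 u1)
                (mul_neg_of_pos_of_neg u2 u3)
            | exact mul_neg_of_neg_of_pos (mul_neg_of_neg_of_pos u0 u1)
                (mul_pos_of_neg_of_neg u2 u3)
            | exact mul_neg_of_neg_of_pos (mul_neg_of_pos_of_neg u0 u1)
                (mul_pos_of_neg_of_neg u2 u3)
          linarith))

theorem t_B2 : B2 := by
  intro f f1 g s1 s2 u v hf hf1 hg pf h12 h21 z0 z1 z2 z3 hdense hu hv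
  have hpi := Real.pi_pos
  -- periodicity of `f1` and `g`
  have pf1 : ∀ s, f1 (s + 2 * Real.pi) = f1 s := by
    intro s
    have h1 : HasDerivAt (fun x => f (x + 2 * Real.pi)) (f1 (s + 2 * Real.pi)) s :=
      (hf (s + 2 * Real.pi)).comp_add_const s (2 * Real.pi)
    have h2 : (fun x => f (x + 2 * Real.pi)) = f := funext pf
    rw [h2] at h1
    exact h1.unique (hf s)
  have pg : ∀ s, g (s + 2 * Real.pi) = g s := by
    intro s
    have h1 : HasDerivAt (fun x => f1 (x + 2 * Real.pi)) (g (s + 2 * Real.pi) - f (s + 2 * Real.pi)) s :=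
      (hf1 (s + 2 * Real.pi)).comp_add_const s (2 * Real.pi)
    have h2 : (fun x => f1 (x + 2 * Real.pi)) = f1 := funext pf1
    rw [h2, pf] at h1
    have h3 := h1.unique (hf1 s)
    linarith
  have z4 : f (s1 + 2 * Real.pi) = 0 := by rw [pf, z0]
  -- every interval has a sign
  have any : ∀ a b : ℝ, a < b → b - a < Real.pi → f a = 0 → f b = 0 →
      Pt f g a b 1 ∨ Pt f g a b (-1) := by
    intro a b hab hl fa fb
    obtain ⟨p, hp, hfp⟩ := hdense a b hab
    rcases lt_or_gt_of_ne hfp with h | h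
    · right
      exact pt_of f f1 g hf hf1 a b p (-1) hl hp.1 hp.2 fa fb (by linarith)
    · left
      exact pt_of f f1 g hf hf1 a b p 1 hl hp.1 hp.2 fa fb (by linarith)
  -- the position of a point
  have loc : ∀ x s : ℝ, (s = 1 ∨ s = -1) →
      0 < s * (Real.sin (x - s1) * Real.sin (x - s2) * f x) →
      Pt f g s1 s2 (-s) ∨ Pt f g s2 (s1 + Real.pi) s ∨
      Pt f g (s1 + Real.pi) (s2 + Real.pi) (-s) ∨ Pt f g (s2 + Real.pi) (s1 + 2 * Real.pi) s := by
    intro x s hs hx
    have h2pi : 0 < 2 * Real.pi := by linarith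
    -- reduce
    obtain ⟨y, hy, hxy⟩ : ∃ y ∈ Ico s1 (s1 + 2 * Real.pi),
        0 < s * (Real.sin (y - s1) * Real.sin (y - s2) * f y) := by
      have hper : Function.Periodic
          (fun x => s * (Real.sin (x - s1) * Real.sin (x - s2) * f x)) (2 * Real.pi) := by
        intro x
        show s * (Real.sin (x + 2 * Real.pi - s1) * Real.sin (x + 2 * Real.pi - s2)
          * f (x + 2 * Real.pi)) = s * (Real.sin (x - s1) * Real.sin (x - s2) * f x)
        rw [pf, show x + 2 * Real.pi - s1 = x - s1 + 2 * Real.pi by ring,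
          show x + 2 * Real.pi - s2 = x - s2 + 2 * Real.pi by ring, Real.sin_add_two_pi,
          Real.sin_add_two_pi]
      obtain ⟨y, hy, he⟩ := hper.exists_mem_Ico h2pi x s1
      exact ⟨y, hy, by rw [← he]; exact hx⟩
    have hne : f y ≠ 0 := by
      intro h
      rw [h] at hxy
      simp at hxy
    have hy1 : y ≠ s1 := fun h => hne (by rw [h, z0])
    have hy2 : y ≠ s2 := fun h => hne (by rw [h, z1])
    have hy3 : y ≠ s1 + Real.pi := fun h => hne (by rw [h, z2])
    have hy4 : y ≠ s2 + Real.pi := fun h => hne (by rw [h, z3])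
    have hys : s1 < y := lt_of_le_of_ne hy.1 (Ne.symm hy1)
    have cancel : ∀ w : ℝ, 0 < w → 0 < s * (w * f y) → 0 < s * f y := by
      intro w hw h
      by_contra hc
      push Not at hc
      have : s * (w * f y) = w * (s * f y) := by ring
      rw [this] at h
      linarith [mul_nonpos_of_nonneg_of_nonpos hw.le hc]
    have cancel' : ∀ w : ℝ, w < 0 → 0 < s * (w * f y) → 0 < -s * f y := by
      intro w hw h
      by_contra hc
      push Not at hc
      have : s * (w * f y) = -w * (-s * f y) := by ring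
      rw [this] at h
      linarith [mul_nonpos_of_nonneg_of_nonpos (neg_pos.2 hw).le hc]
    rcases lt_or_gt_of_ne hy2 with h2 | h2
    · left
      refine pt_of f f1 g hf hf1 s1 s2 y (-s) (by linarith) hys h2 z0 z1 (cancel' _ ?_ hxy)
      apply mul_neg_of_pos_of_neg
      · exact Real.sin_pos_of_pos_of_lt_pi (by linarith) (by linarith)
      · exact Real.sin_neg_of_neg_of_neg_pi_lt (by linarith) (by linarith)
    · rcases lt_or_gt_of_ne hy3 with h3 | h3
      · right; left
        refine pt_of f f1 g hf hf1 s2 (s1 + Real.pi) y s (by linarith) h2 h3 z1 z2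
          (cancel _ ?_ hxy)
        apply mul_pos
        · exact Real.sin_pos_of_pos_of_lt_pi (by linarith) (by linarith)
        · exact Real.sin_pos_of_pos_of_lt_pi (by linarith) (by linarith)
      · have e1 : Real.sin (y - s1) = -Real.sin (y - Real.pi - s1) := by
          rw [show y - s1 = y - Real.pi - s1 + Real.pi by ring, Real.sin_add_pi]
        rcases lt_or_gt_of_ne hy4 with h4 | h4
        · right; right; left
          refine pt_of f f1 g hf hf1 (s1 + Real.pi) (s2 + Real.pi) y (-s) (by linarith) h3 h4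
            z2 z3 (cancel' _ ?_ hxy)
          apply mul_neg_of_neg_of_pos
          · rw [e1]
            have : 0 < Real.sin (y - Real.pi - s1) :=
              Real.sin_pos_of_pos_of_lt_pi (by linarith) (by linarith)
            linarith
          · exact Real.sin_pos_of_pos_of_lt_pi (by linarith) (by linarith)
        · right; right; right
          refine pt_of f f1 g hf hf1 (s2 + Real.pi) (s1 + 2 * Real.pi) y s (by linarith) h4 hy.2
            z3 z4 (cancel _ ?_ hxy)
          have e2 : Real.sin (y - s2) = -Real.sin (y - Real.pi - s2) := by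
            rw [show y - s2 = y - Real.pi - s2 + Real.pi by ring, Real.sin_add_pi]
          rw [e1, e2, neg_mul_neg]
          apply mul_pos
          · exact Real.sin_pos_of_pos_of_lt_pi (by linarith) (by linarith [hy.2])
          · exact Real.sin_pos_of_pos_of_lt_pi (by linarith) (by linarith [hy.2])
  have Lu := loc u 1 (Or.inl rfl) (by linarith)
  have Lv := loc v (-1) (Or.inr rfl) (by linarith)
  rw [neg_neg] at Lv
  have A0 := any s1 s2 h12 (by linarith) z0 z1
  have A1 := any s2 (s1 + Real.pi) h21 (by linarith) z1 z2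
  have A2 := any (s1 + Real.pi) (s2 + Real.pi) (by linarith) (by linarith) z2 z3
  have A3 := any (s2 + Real.pi) (s1 + 2 * Real.pi) (by linarith) (by linarith) z3 z4
  have main := fin4 f f1 g hf hf1 pf pg s1 s2 h12 h21 z0 z1 z2 z3
  have F : ∀ s0 s1' s2' s3 : ℝ, (s0 = 1 ∨ s0 = -1) → (s1' = 1 ∨ s1' = -1) →
      (s2' = 1 ∨ s2' = -1) → (s3 = 1 ∨ s3 = -1) → Pt f g s1 s2 s0 →
      Pt f g s2 (s1 + Real.pi) s1' → Pt f g (s1 + Real.pi) (s2 + Real.pi) s2' →
      Pt f g (s2 + Real.pi) (s1 + 2 * Real.pi) s3 →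
      ¬ (s1' = -s0 ∧ s2' = -s1' ∧ s3 = -s2') → Six g := main
  have o1 : (1 : ℝ) = 1 ∨ (1 : ℝ) = -1 := Or.inl rfl
  have o2 : (-1 : ℝ) = 1 ∨ (-1 : ℝ) = -1 := Or.inr rfl
  rcases A0 with a0 | a0 <;> rcases A1 with a1 | a1 <;> rcases A2 with a2 | a2 <;>
    rcases A3 with a3 | a3
  all_goals first
    | (refine F _ _ _ _ ?_ ?_ ?_ ?_ a0 a1 a2 a3 ?_ <;> first | exact o1 | exact o2 | norm_num; done)
    | (rcases Lu with b | b | b | b <;> rcases Lv with c | c | c | c <;>
        first
        | (refine F _ _ _ _ ?_ ?_ ?_ ?_ b a1 a2 a3 ?_ <;>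
            first | exact o1 | exact o2 | norm_num; done)
        | (refine F _ _ _ _ ?_ ?_ ?_ ?_ a0 b a2 a3 ?_ <;>
            first | exact o1 | exact o2 | norm_num; done)
        | (refine F _ _ _ _ ?_ ?_ ?_ ?_ a0 a1 b a3 ?_ <;>
            first | exact o1 | exact o2 | norm_num; done)
        | (refine F _ _ _ _ ?_ ?_ ?_ ?_ a0 a1 a2 b ?_ <;>
            first | exact o1 | exact o2 | norm_num; done)
        | (refine F _ _ _ _ ?_ ?_ ?_ ?_ c a1 a2 a3 ?_ <;>
            first | exact o1 | exact o2 | norm_num; done)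
        | (refine F _ _ _ _ ?_ ?_ ?_ ?_ a0 c a2 a3 ?_ <;>
            first | exact o1 | exact o2 | norm_num; done)
        | (refine F _ _ _ _ ?_ ?_ ?_ ?_ a0 a1 c a3 ?_ <;>
            first | exact o1 | exact o2 | norm_num; done)
        | (refine F _ _ _ _ ?_ ?_ ?_ ?_ a0 a1 a2 c ?_ <;>
            first | exact o1 | exact o2 | norm_num; done))

end Pool.Agent.E8helper81.FV
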